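import Pool.Agent.H10.ALG.Targets

/-!
# Row STG of the board alg_modules: one stage of the construction
-/

set_option autoImplicit false

namespace Pool.Agent.H8.ALG

open Filter
open Pool.Agent.H10.ALG

theorem lev_lt {a b : ℕ} (h : a < b) : lev a < lev b := by
  unfold lev
  have h1 : 2 ^ a < 2 ^ b := Nat.pow_lt_pow_right (by norm_num) h
  omega

theorem lev_inj {a b : ℕ} (h : lev a = lev b) : a = b := by
  rcases Nat.lt_trichotomy a b with h1 | h1 | h1
  · exact absurd h (lev_lt h1).ne
  · exact h1
  · exact absurd h (lev_lt h1).ne'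

theorem pf_STG (hFIN : T_FIN) (hKEY : T_KEY) (hORC : T_ORC) (hPUT : T_PUT) (hLNG : T_LNG)
    (hAGR : T_AGR) : T_STG := by
  intro g F hg hF j V hV N C hC hUC
  obtain ⟨O0, hO0⟩ := hORC g F hF C
  obtain ⟨n, h1, h2, hN⟩ := ((hFIN j).and (((hKEY g hg).1 j).and (eventually_ge_atTop N))).exists
  obtain ⟨S, hS, hdec⟩ := h1 O0 V (hV n)
  have hlev : lev n ≤ cost j n := hAGR.2.2.1 j n
  have hnl : n < lev n := by
    unfold lev
    have h0 : 0 < 2 ^ n := by positivity
    omega
  have hlen : ∀ x y : List Bool, y.length = 2 ^ x.length → ∀ b : Bool,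
      (b :: (x ++ y)).length + 1 = lev x.length := by
    intro x y hy b
    rw [List.length_cons, List.length_append, hy]
    unfold lev
    omega
  refine ⟨n, fun z => if z.length + 1 = lev n then blkv S z else C z, hN, ?_, ?_, ?_, ?_⟩
  · intro z hz
    show (if z.length + 1 = lev n then blkv S z else C z) = C z
    rw [if_neg (by omega)]
  · intro z hz
    show (if z.length + 1 = lev n then blkv S z else C z) = false
    rw [if_neg (by omega)]
    exact hC z (by omega)
  · intro x y y' hy hy' h3 h4 h5 h6
    change (if _ then _ else _) = true at h3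
    change (if _ then _ else _) = true at h4
    change (if _ then _ else _) = true at h5
    change (if _ then _ else _) = true at h6
    rw [hlen x y hy false] at h3
    rw [hlen x y hy true] at h4
    rw [hlen x y' hy' false] at h5
    rw [hlen x y' hy' true] at h6
    by_cases hx : x.length = n
    · rw [if_pos (by rw [hx])] at h3 h4 h5 h6
      obtain ⟨x', hx'⟩ : ∃ x' : Fin n → Bool, x = List.ofFn x' := by
        subst hx
        exact ⟨x.get, (List.ofFn_get x).symm⟩
      have hput : ∀ (u : List Bool) (b : Bool), u.length = 2 ^ x.length →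
          put n O0 S (false :: b :: (x ++ u)) = blkv S (b :: (x ++ u)) := by
        intro u b hu
        unfold put
        rw [if_pos]
        · rfl
        · refine ⟨?_, rfl⟩
          rw [List.length_cons, hlen x u hu b, hx]
      have hw : ∀ u : List Bool, u.length = 2 ^ x.length → blkv S (false :: (x ++ u)) = true →
          blkv S (true :: (x ++ u)) = true → Wit (put n O0 S) (List.ofFn x') u := by
        intro u hu h7 h8
        rw [← hx']
        exact ⟨hu, (hput u false hu).trans h7, (hput u true hu).trans h8⟩
      exact (hLNG n O0 S x').2 hS y y' (hw y hy h3 h4) (hw y' hy' h5 h6)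
    · have hne : ¬ lev x.length = lev n := fun h => hx (lev_inj h)
      rw [if_neg hne] at h3 h4 h5 h6
      exact hUC x y y' hy hy' h3 h4 h5 h6
  · intro C'' hC'' O hO a ha hD
    have hagr : Agr (cost j n) O (put n O0 S) := by
      refine hPUT g F hF n (cost j n) h2 C C'' O0 O S hO0 hO ?_ ?_
      · intro z hz hz'
        rw [hC'' z hz]
        show (if z.length + 1 = lev n then blkv S z else C z) = C z
        rw [if_neg hz']
      · intro z hz
        rw [hC'' z (by omega)]
        show (if z.length + 1 = lev n then blkv S z else C z) = blkv S z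
        rw [if_pos hz]
    exact hdec a ha (hAGR.2.2.2 V j n O (put n O0 S) (hV n) hagr a hD)

end Pool.Agent.H8.ALG
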