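import Pool.Agent.H10.ALG.Targets

/-!
# Row KEY of the board alg_modules: the lengths of the keys
-/

set_option autoImplicit false

namespace Pool.Agent.H8.ALG

open Filter
open Pool.Agent.H10.ALG

theorem key_len (g : ℕ → ℕ) (j : ℕ) (x : List Bool) :
    (key g j x).length = 2 ^ (x.length * g x.length) + j + x.length + 3 := by
  unfold key
  simp only [List.length_cons, List.length_append, List.length_replicate]
  omega

/-- the arithmetic of the first part -/
theorem key_ar (J J0 n1 G n : ℕ) (hJ0 : 1 ≤ J0) (hn1 : 1 ≤ n1) (hn : 1 ≤ n)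
    (h1 : J * J ≤ G) (h2 : n1 * G ≤ J0 * (n + 1)) (h3 : 16 * J0 * J0 ≤ G) :
    J * (n1 + 1) ≤ n := by
  have h5 : J * (n1 + 1) ≤ 2 * (J * n1) := by nlinarith
  rcases le_or_gt (4 * J0) J with h | h
  · have h4 : J0 * (4 * (J * n1)) ≤ J0 * (n + 1) := by
      calc J0 * (4 * (J * n1)) = (4 * J0) * (J * n1) := by ring
        _ ≤ J * (J * n1) := Nat.mul_le_mul_right _ h
        _ = n1 * (J * J) := by ring
        _ ≤ n1 * G := Nat.mul_le_mul_left _ h1
        _ ≤ J0 * (n + 1) := h2
    have h6 : 4 * (J * n1) ≤ n + 1 := Nat.le_of_mul_le_mul_left h4 (by omega)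
    omega
  · have h4 : J0 * (16 * (J0 * n1)) ≤ J0 * (n + 1) := by
      calc J0 * (16 * (J0 * n1)) = n1 * (16 * J0 * J0) := by ring
        _ ≤ n1 * G := Nat.mul_le_mul_left _ h3
        _ ≤ J0 * (n + 1) := h2
    have h6 : 16 * (J0 * n1) ≤ n + 1 := Nat.le_of_mul_le_mul_left h4 (by omega)
    have h7 : J * n1 ≤ 4 * (J0 * n1) := by
      calc J * n1 ≤ (4 * J0) * n1 := Nat.mul_le_mul_right _ h.le
        _ = 4 * (J0 * n1) := by ring
    omega

theorem pf_KEY : T_KEY := by
  intro g hg
  constructor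
  · intro j0
    obtain ⟨N0, hN0⟩ := (eventually_atTop.1 (hg.eventually_ge_atTop (16 * (j0 + 2) * (j0 + 2))))
    have hG : ∃ G, ∀ i < N0 + 1, g i ≤ G := by
      refine ⟨∑ i ∈ Finset.range (N0 + 1), g i, fun i hi => ?_⟩
      exact Finset.single_le_sum (f := fun i => g i) (fun _ _ => Nat.zero_le _)
        (Finset.mem_range.2 hi)
    obtain ⟨G, hG⟩ := hG
    filter_upwards [eventually_ge_atTop (G * (N0 + 1) + 1)] with n hn j x henc hkey
    obtain ⟨h1, h2⟩ := henc
    rw [key_len] at hkey
    have h3 : 2 ^ (x.length * g x.length) ≤ 2 ^ ((j0 + 2) * (n + 1)) := by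
      have : cost j0 n = 2 ^ ((j0 + 2) * (n + 1)) := rfl
      omega
    have h4 : x.length * g x.length ≤ (j0 + 2) * (n + 1) :=
      (Nat.pow_le_pow_iff_right (by norm_num)).1 h3
    have h5 : (j + 2) * (x.length + 1) ≤ n := by
      rcases Nat.lt_or_ge x.length (N0 + 1) with h | h
      · have h6 : j + 2 ≤ G := by
          have h7 := hG x.length h
          have h8 : j + 2 ≤ (j + 2) * (j + 2) := Nat.le_mul_of_pos_left _ (by omega)
          omega
        have h9 : (j + 2) * (x.length + 1) ≤ G * (N0 + 1) :=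
          Nat.mul_le_mul h6 (by omega)
        omega
      · exact key_ar (j + 2) (j0 + 2) x.length (g x.length) n (by omega) (by omega)
          (by omega) h2 h4 (hN0 _ (by omega))
    have h6 : cost j x.length ≤ 2 ^ n := Nat.pow_le_pow_right (by norm_num) h5
    unfold lev
    omega
  · intro j
    filter_upwards [hg.eventually_ge_atTop ((j + 2) * (j + 2)),
      hg.eventually_ge_atTop (2 * (j + 2)), eventually_ge_atTop 1] with n h1 h2 h3 x hx
    refine ⟨?_, by rw [hx]; exact h1⟩
    rw [key_len, hx]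
    have h4 : (j + 2) * (n + 1) ≤ n * g n := by
      calc (j + 2) * (n + 1) ≤ (j + 2) * (2 * n) := Nat.mul_le_mul_left _ (by omega)
        _ = n * (2 * (j + 2)) := by ring
        _ ≤ n * g n := Nat.mul_le_mul_left _ h2
    have h5 : cost j n ≤ 2 ^ (n * g n) := Nat.pow_le_pow_right (by norm_num) h4
    omega

end Pool.Agent.H8.ALG
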